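import Pool.Agent.helper26.IM.SpecA

/-!
# Project im: module OVG (separation of points, the general case)
-/

set_option autoImplicit false

open Finset

namespace Pool.Agent.helper26.IM

open Pool.Agent.RRank Pool.Agent.helper35.MR

theorem OVG_sep {F0 E : Type} [Field F0] [Field E] [Algebra F0 E] (p : ℕ) [hE : ExpChar F0 p]
    (n k : ℕ) (hk : p = 1 ∨ n < p ^ (k + 1)) (x : E) (hx : IsIntegral F0 x)
    (hdeg : (minpoly F0 x).natDegree ≤ n) : IsSeparable F0 (x ^ p ^ k) := by
  rcases hE with _ | hp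
  · rw [one_pow, pow_one]
    exact (minpoly.irreducible hx).separable
  · obtain ⟨m, g, hg, hexp⟩ := Polynomial.exists_separable_of_irreducible p
      (minpoly.irreducible hx) hp.ne_zero
    have hdg : (minpoly F0 x).natDegree = g.natDegree * p ^ m := by
      rw [← hexp, Polynomial.natDegree_expand]
    have hpos : 0 < (minpoly F0 x).natDegree := minpoly.natDegree_pos hx
    have hg0 : g.natDegree ≠ 0 := by
      intro h
      rw [hdg, h, zero_mul] at hpos
      exact lt_irrefl _ hpos
    have hpm : p ^ m ≤ n := by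
      refine le_trans ?_ hdeg
      rw [hdg]
      exact Nat.le_mul_of_pos_left _ (Nat.pos_of_ne_zero hg0)
    have hmk : m ≤ k := by
      rcases hk with h | h
      · exact absurd h hp.one_lt.ne'
      · have h2 : p ^ m < p ^ (k + 1) := lt_of_le_of_lt hpm h
        have h3 := (Nat.pow_lt_pow_iff_right hp.one_lt).1 h2
        omega
    have h1 : Polynomial.aeval (x ^ p ^ m) g = 0 := by
      rw [← Polynomial.expand_aeval, hexp]
      exact minpoly.aeval F0 x
    have h2 : IsSeparable F0 (x ^ p ^ m) := hg.of_dvd (minpoly.dvd F0 _ h1)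
    have h3 : (x ^ p ^ m) ^ p ^ (k - m) ∈ separableClosure F0 E :=
      pow_mem ((mem_separableClosure_iff).2 h2) _
    rw [← pow_mul, ← pow_add, Nat.add_sub_cancel' hmk] at h3
    exact (mem_separableClosure_iff).1 h3

theorem OVG_exp (K : Type) [Field K] (n : ℕ) (hn : n ≠ 0) : ∃ (p k : ℕ), ExpChar K p ∧
    (p = 1 ∨ n < p ^ (k + 1)) ∧ p ^ k ≤ n ∧ 0 < p ^ k := by
  obtain ⟨p, hp⟩ := ExpChar.exists K
  by_cases h1 : p = 1
  · refine ⟨p, 0, hp, Or.inl h1, ?_, ?_⟩
    · rw [pow_zero]; omega
    · rw [pow_zero]; omega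
  · have hpr : p.Prime := by
      rcases expChar_is_prime_or_one K p with h | h
      · exact h
      · exact absurd h h1
    refine ⟨p, Nat.log p n, hp, Or.inr (Nat.lt_pow_succ_log_self hpr.one_lt n),
      Nat.pow_log_le_self p hn, pow_pos hpr.pos _⟩

/-- the span of the powers -/
theorem OVG_span {K F J : Type} [Field K] [Field F] [Algebra K F] (p k : ℕ) [ExpChar F p]
    (e : J → F) (a : F) (ha : a ∈ Submodule.span K (Set.range e)) :
    a ^ p ^ k ∈ Submodule.span K (Set.range fun j => e j ^ p ^ k) := by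
  induction ha using Submodule.span_induction with
  | mem x hx =>
    obtain ⟨j, rfl⟩ := hx
    exact Submodule.subset_span ⟨j, rfl⟩
  | zero =>
    rw [zero_pow (expChar_pow_pos F p k).ne']
    exact Submodule.zero_mem _
  | add x y _ _ hx hy =>
    rw [add_pow_expChar_pow]
    exact Submodule.add_mem _ hx hy
  | smul c x _ hx =>
    rw [smul_pow]
    exact Submodule.smul_mem _ _ hx

/-- the power of the polynomial -/
theorem OVG_pol {K F : Type} [Field K] [Field F] [Algebra (Polynomial K) F] (p k : ℕ) [ExpChar K p]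
    (n D : ℕ) (x : F) (P : Polynomial (Polynomial K)) (hP : P.Monic) (hn : P.natDegree = n)
    (hD : ∀ i, (P.coeff i).natDegree ≤ D) (hx : Polynomial.aeval x P = 0) [ExpChar F p] :
    Bdd (K := K) n (p ^ k * D) (x ^ p ^ k) := by
  refine ⟨P.map (iterateFrobenius (Polynomial K) p k), hP.map _, ?_, ?_, ?_⟩
  · rw [hP.natDegree_map, hn]
  · intro i
    rw [Polynomial.coeff_map, iterateFrobenius_def]
    exact le_trans Polynomial.natDegree_pow_le (Nat.mul_le_mul_left _ (hD i))
  · rw [Polynomial.aeval_def, Polynomial.eval₂_map]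
    have h1 : (algebraMap (Polynomial K) F).comp (iterateFrobenius (Polynomial K) p k) =
        (iterateFrobenius F p k).comp (algebraMap (Polynomial K) F) := by
      refine RingHom.ext fun a => ?_
      simp only [RingHom.comp_apply, iterateFrobenius_def, map_pow]
    rw [h1, ← iterateFrobenius_def (R := F) p k x, ← Polynomial.hom_eval₂, ← Polynomial.aeval_def, hx, map_zero]

theorem OVG (hOVS : OVS_stmt) (hEXI : EXI_stmt) : OVG_stmt := by
  intro K _ _ F _ _ s hs J _ e n D hP
  classical
  rcases isEmpty_or_nonempty J with hJ | hJ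
  · refine ⟨∅, fun C _ _ a ha hsp hne => ?_⟩
    exfalso
    apply hne
    have h1 : Set.range e = ∅ := Set.range_eq_empty e
    rw [h1, Submodule.span_empty] at hsp
    exact (Submodule.mem_bot K).1 hsp
  obtain ⟨j0⟩ := hJ
  have hn : n ≠ 0 := by
    obtain ⟨P, hm, hnd, -, hev⟩ := hP j0
    intro h0
    rw [h0] at hnd
    have h1 : P = 1 := Polynomial.eq_one_of_monic_natDegree_zero hm hnd
    rw [h1, Polynomial.eval₂_one] at hev
    exact one_ne_zero hev
  obtain ⟨p, k, hp, hk, hkn, hk0⟩ := OVG_exp K n hn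
  have hinj : Function.Injective (Polynomial.aeval s : Polynomial K →ₐ[K] F) :=
    transcendental_iff_injective.1 hs
  let aKF : Algebra (Polynomial K) F :=
    (Polynomial.aeval s : Polynomial K →ₐ[K] F).toRingHom.toAlgebra
  have hmap : ∀ f : Polynomial K, algebraMap (Polynomial K) F f = Polynomial.aeval s f :=
    fun f => rfl
  have hinj' : Function.Injective (algebraMap (Polynomial K) F) := hinj
  let aRF : Algebra (RatFunc K) F :=
    (IsFractionRing.lift (A := Polynomial K) (K := RatFunc K) hinj').toAlgebra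
  have t1 : IsScalarTower (Polynomial K) (RatFunc K) F :=
    IsScalarTower.of_algebraMap_eq fun f => (IsFractionRing.lift_algebraMap hinj' f).symm
  have t2 : IsScalarTower K (Polynomial K) F :=
    IsScalarTower.of_algebraMap_eq fun c => by
      rw [hmap]
      exact ((Polynomial.aeval s : Polynomial K →ₐ[K] F).commutes c).symm
  have t3 : IsScalarTower K (RatFunc K) F :=
    IsScalarTower.of_algebraMap_eq fun c => by
      rw [IsScalarTower.algebraMap_apply K (Polynomial K) (RatFunc K),
        ← IsScalarTower.algebraMap_apply (Polynomial K) (RatFunc K) F,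
        ← IsScalarTower.algebraMap_apply K (Polynomial K) F]
  have hpF : ExpChar F p := expChar_of_injective_algebraMap (algebraMap K F).injective p
  have hpR : ExpChar (RatFunc K) p :=
    expChar_of_injective_algebraMap (algebraMap K (RatFunc K)).injective p
  have hP' : ∀ j, ∃ P : Polynomial (Polynomial K), P.Monic ∧ P.natDegree = n ∧
      (∀ i, (P.coeff i).natDegree ≤ D) ∧ Polynomial.aeval (e j) P = 0 := hP
  have hint1 : ∀ j, IsIntegral (Polynomial K) (e j) := by
    intro j
    obtain ⟨P, hm, -, -, hev⟩ := hP' j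
    exact ⟨P, hm, hev⟩
  have hint2 : ∀ j, IsIntegral (RatFunc K) (e j) := fun j => (hint1 j).tower_top
  have hsep : ∀ j, IsSeparable (RatFunc K) (e j ^ p ^ k) := by
    intro j
    obtain ⟨P, hm, hnd, -, hev⟩ := hP' j
    refine OVG_sep p n k hk (e j) (hint2 j) ?_
    have h1 : minpoly (RatFunc K) (e j) ∣ P.map (algebraMap (Polynomial K) (RatFunc K)) := by
      refine minpoly.dvd _ _ ?_
      rw [Polynomial.aeval_map_algebraMap]
      exact hev
    have h2 := Polynomial.natDegree_le_of_dvd h1 (hm.map _).ne_zero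
    rw [hm.natDegree_map, hnd] at h2
    exact h2
  -- the field
  let E : IntermediateField (RatFunc K) F :=
    IntermediateField.adjoin (RatFunc K) (Set.range fun j => e j ^ p ^ k)
  have hmemE : ∀ j, e j ^ p ^ k ∈ E := fun j => IntermediateField.subset_adjoin _ _ ⟨j, rfl⟩
  have hfd : FiniteDimensional (RatFunc K) E := by
    have : Finite (Set.range fun j => e j ^ p ^ k) := Set.finite_range _
    refine IntermediateField.finiteDimensional_adjoin ?_
    rintro _ ⟨j, rfl⟩
    exact (hint2 j).pow _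
  have hsE : Algebra.IsSeparable (RatFunc K) E := by
    refine (IntermediateField.isSeparable_adjoin_iff_isSeparable _ _).2 ?_
    rintro _ ⟨j, rfl⟩
    exact hsep j
  have t4 : IsScalarTower (Polynomial K) (RatFunc K) E := inferInstance
  have t5 : IsScalarTower K (Polynomial K) E :=
    IsScalarTower.of_algebraMap_eq fun c => Subtype.ext (by
      show algebraMap K F c = algebraMap (Polynomial K) F (algebraMap K (Polynomial K) c)
      exact IsScalarTower.algebraMap_apply K (Polynomial K) F c)
  have t6 : IsScalarTower (Polynomial K) E F :=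
    IsScalarTower.of_algebraMap_eq fun c => rfl
  let e'' : J → E := fun j => ⟨e j ^ p ^ k, hmemE j⟩
  have hB : ∀ j, ∃ n, Bdd (K := K) n (p ^ k * D) (e'' j) := by
    intro j
    obtain ⟨P, hm, hnd, hD, hev⟩ := hP' j
    obtain ⟨Q, hQ1, hQ2, hQ3, hQ4⟩ := OVG_pol p k n D (e j) P hm hnd hD hev
    refine ⟨n, Q, hQ1, hQ2, hQ3, ?_⟩
    apply (algebraMap E F).injective
    rw [map_zero, ← Polynomial.aeval_algebraMap_apply F (e'' j) Q]
    exact hQ4
  obtain ⟨Bad, hBad⟩ := hOVS K E J e'' (p ^ k * D) hB
  refine ⟨Bad, fun C hC hcard a ha hsp hne => ?_⟩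
  have hcard' : p ^ k * D < C.card := lt_of_le_of_lt (Nat.mul_le_mul_right D hkn) hcard
  -- the inclusion of the field
  have t7 : IsScalarTower K (RatFunc K) E := inferInstance
  let ι : E →ₐ[K] F := E.val.restrictScalars K
  have hι : Function.Injective ι := Subtype.val_injective
  let S' : Subalgebra K E :=
    Algebra.adjoin K (insert (algebraMap (Polynomial K) E Polynomial.X) (Set.range e''))
  let A : Subalgebra K F := Algebra.adjoin K (insert s (Set.range fun j => e j ^ p ^ k))
  have hιX : ι (algebraMap (Polynomial K) E Polynomial.X) = s := by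
    show algebraMap (Polynomial K) F Polynomial.X = s
    rw [hmap, Polynomial.aeval_X]
  have hS'A : S'.map ι = A := by
    show (Algebra.adjoin K _).map ι = _
    rw [AlgHom.map_adjoin, Set.image_insert_eq, hιX, ← Set.range_comp]
    rfl
  have hAB : A ≤ Algebra.adjoin K (insert s (Set.range e)) := by
    refine Algebra.adjoin_le ?_
    rintro x (rfl | ⟨j, rfl⟩)
    · exact Algebra.subset_adjoin (Set.mem_insert _ _)
    · have h1 : e j ∈ Algebra.adjoin K (insert s (Set.range e)) :=
        Algebra.subset_adjoin (Set.mem_insert_of_mem _ ⟨j, rfl⟩)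
      exact pow_mem h1 _
  have hsA : s ∈ A := Algebra.subset_adjoin (Set.mem_insert _ _)
  have hint : ∀ x ∈ Algebra.adjoin K (insert s (Set.range e)), IsIntegral A x := by
    intro x hx
    have h1 : Algebra.adjoin K (insert s (Set.range e)) ≤
        (integralClosure A F).restrictScalars K := by
      refine Algebra.adjoin_le ?_
      rintro y (rfl | ⟨j, rfl⟩)
      · exact isIntegral_algebraMap (x := (⟨y, hsA⟩ : A))
      · refine IsIntegral.of_pow (n := p ^ k) hk0 ?_
        exact isIntegral_algebraMap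
          (x := (⟨e j ^ p ^ k, Algebra.subset_adjoin (Set.mem_insert_of_mem _ ⟨j, rfl⟩)⟩ : A))
    exact h1 hx
  -- the element
  have hapow : a ^ p ^ k ∈ (Submodule.span K (Set.range e'')).map ι.toLinearMap := by
    rw [Submodule.map_span, ← Set.range_comp]
    exact OVG_span p k e a hsp
  obtain ⟨a', ha'sp, ha'⟩ := hapow
  have ha'2 : ι a' = a ^ p ^ k := ha'
  have ha'mem : a' ∈ S' := by
    have h1 : Submodule.span K (Set.range e'') ≤ Subalgebra.toSubmodule S' := by
      refine Submodule.span_le.2 ?_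
      intro y hy
      exact Algebra.subset_adjoin (Set.mem_insert_of_mem _ hy)
    exact h1 ha'sp
  have ha'ne : a' ≠ 0 := by
    intro h
    rw [h, map_zero] at ha'2
    exact hne (eq_zero_of_pow_eq_zero ha'2.symm)
  obtain ⟨h', hX, hh'⟩ := hBad C hC hcard' a' ha'mem ha'sp ha'ne
  obtain ⟨φ, hφ⟩ : ∃ φ : A →ₐ[K] K, ∀ (x : S') (hx : ι (x : E) ∈ A),
      φ (⟨ι (x : E), hx⟩ : A) = h' x := by
    refine ⟨h'.comp ((S'.equivMapOfInjective ι hι).symm.toAlgHom.comp
      (Subalgebra.inclusion hS'A.ge)), fun x hx => ?_⟩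
    show h' ((S'.equivMapOfInjective ι hι).symm (Subalgebra.inclusion hS'A.ge ⟨ι (x : E), hx⟩)) = h' x
    congr 1
    rw [AlgEquiv.symm_apply_eq]
    apply Subtype.ext
    rfl
  obtain ⟨ψ, hψ⟩ := hEXI K F A _ hAB hint φ
  refine ⟨ψ, ?_, ?_⟩
  · have h1 := hψ ⟨s, hsA⟩
    have h2 := hφ ⟨_, Algebra.subset_adjoin (Set.mem_insert _ _)⟩ (by
      show ι (algebraMap (Polynomial K) E Polynomial.X) ∈ A
      rw [hιX]
      exact hsA)
    have h3 : (⟨ι (algebraMap (Polynomial K) E Polynomial.X), by rw [hιX]; exact hsA⟩ : A) =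
        ⟨s, hsA⟩ := Subtype.ext hιX
    have h4 : φ ⟨s, hsA⟩ ∈ C := by
      rw [← h3]
      rw [show φ ⟨ι (algebraMap (Polynomial K) E Polynomial.X), by rw [hιX]; exact hsA⟩ = _ from h2]
      exact hX
    rw [← h1] at h4
    exact h4
  · intro h0
    have hamem : a ^ p ^ k ∈ A := by
      rw [← ha'2, ← hS'A]
      exact ⟨a', ha'mem, rfl⟩
    have h1 := hψ ⟨a ^ p ^ k, hamem⟩
    have h2 : Subalgebra.inclusion hAB ⟨a ^ p ^ k, hamem⟩ = (⟨a, ha⟩ : Algebra.adjoin K (insert s (Set.range e))) ^ p ^ k :=
      Subtype.ext rfl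
    rw [h2, map_pow, h0, zero_pow hk0.ne'] at h1
    have h3 := hφ ⟨a', ha'mem⟩ (by
      show ι a' ∈ A
      rw [ha'2]
      exact hamem)
    have h4 : (⟨ι a', by rw [ha'2]; exact hamem⟩ : A) = ⟨a ^ p ^ k, hamem⟩ := Subtype.ext ha'2
    apply hh'
    rw [← h3]
    rw [show φ ⟨ι a', by rw [ha'2]; exact hamem⟩ = φ ⟨a ^ p ^ k, hamem⟩ from congrArg φ h4]
    exact h1.symm

end Pool.Agent.helper26.IM
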